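import Pool.Agent.T9h7.GN.Glue

set_option autoImplicit false

/-!
# Digital nets in every base: the star discrepancy always has the worst possible order

For every dimension `d ≥ 3`, every base `b ≥ 2` and every `t` there is `c > 0` such that EVERY
`(t,m,d)`-net in base `b` whose LEADING digits (the first `m/(d-1) + (t+1)(d-1)` ones) are
compatible with some structure of an abelian group on the set of the `b^m` points has star
discrepancy at least `c m^(d-1) / b^m`: with `N = b^m` points this is the order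
`(log N)^(d-1) / N` of the classical upper bound. This covers the digital method over every finite
ring, with arbitrary bijections between the ring and the digits, arbitrary digital shifts, and
arbitrary digits after the leading ones.
-/

namespace Pool.Agent.Results.MP_173de9_an.GroupNets

open Finset MeasureTheory

/-- The local discrepancy `∏ x_j - (1/m) Σ_μ χ_{[0,x]}(ξ^μ)` of `m` points `ξ` at `x`. -/
noncomputable def localDisc {m d : ℕ} (ξ : Fin m → Fin d → ℝ) (x : Fin d → ℝ) : ℝ :=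
  ∏ j, x j - (1 / (m:ℝ)) * ∑ μ : Fin m, (Set.Icc (0 : Fin d → ℝ) x).indicator (fun _ => (1:ℝ)) (ξ μ)

/-- `D(ξ,m,d)_∞`: the `L_∞` norm of the local discrepancy over `[0,1]^d`. -/
noncomputable def starDisc {m d : ℕ} (ξ : Fin m → Fin d → ℝ) : ENNReal :=
  eLpNorm (localDisc ξ) ⊤ (volume.restrict (Set.Icc (0 : Fin d → ℝ) 1))

open Classical in
/-- `(t,m,d)`-nets in base `b`: every elementary interval `∏ [v_i b^(-k_i), (v_i+1) b^(-k_i))` of
volume `b^(t-m)` contains exactly `b^t` of the `b^m` points. -/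
def IsNet (b t m : ℕ) {d : ℕ} (ξ : Fin (b ^ m) → Fin d → ℝ) : Prop :=
  ∀ k v : Fin d → ℕ, ∑ i, k i + t = m → (∀ i, v i < b ^ k i) →
    (univ.filter (fun μ => ∀ i, (v i : ℝ) / (b:ℝ) ^ k i ≤ ξ μ i ∧
      ξ μ i < ((v i : ℝ) + 1) / (b:ℝ) ^ k i)).card = b ^ t

/-- The digit of `a ∈ [0,1)` in base `b` with the weight `b^(-(l+1))`. -/
noncomputable def digit (b l : ℕ) (a : ℝ) : ℕ := ⌊(b:ℝ) ^ (l + 1) * a⌋₊ % b

/-- The first `n` digits of the points are compatible with a structure of an abelian group on the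
set of the points: the points can be numbered by the elements of an abelian group `G` in such a way
that, for every coordinate `i` and every `l < n`, the equivalence relation of having the same
`l`-th digit of the `i`-th coordinate is invariant under the translations of `G`. -/
def IsGroupDigital (b m n : ℕ) {d : ℕ} (ξ : Fin (b ^ m) → Fin d → ℝ) : Prop :=
  ∃ (G : Type) (_ : AddCommGroup G) (e : Fin (b ^ m) ≃ G), ∀ i, ∀ l < n, ∀ u v w : G,
    digit b l (ξ (e.symm u) i) = digit b l (ξ (e.symm v) i) →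
      digit b l (ξ (e.symm (u + w)) i) = digit b l (ξ (e.symm (v + w)) i)

/-- The first `n` digits of the points are constructed by the digital method over a finite ring `R`
with `b` elements: after a numbering of the points by the vectors of `R^m`, the `l`-th digit of the
`i`-th coordinate of the point with the number `u` is `ψ_{i,l}(C_{i,l} · u + σ_{i,l})`, where
`C_{i,l}` is the `l`-th row of the `i`-th generating matrix, `σ` is a digital shift and the
`ψ_{i,l}` are arbitrary bijections between `R` and the set of the digits. -/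
def IsDigital (b m n : ℕ) {d : ℕ} (ξ : Fin (b ^ m) → Fin d → ℝ) : Prop :=
  ∃ (R : Type) (_ : Ring R) (e : Fin (b ^ m) ≃ (Fin m → R)) (C : Fin d → ℕ → Fin m → R)
    (σ : Fin d → ℕ → R) (ψ : Fin d → ℕ → R ≃ Fin b), ∀ μ i, ∀ l < n,
      digit b l (ξ μ i) = (ψ i l (∑ j, C i l j * e μ j + σ i l) : ℕ)

lemma IsDigital.isGroupDigital {b m n d : ℕ} {ξ : Fin (b ^ m) → Fin d → ℝ}
    (h : IsDigital b m n ξ) : IsGroupDigital b m n ξ := by
  obtain ⟨R, _, e, C, σ, ψ, h⟩ := h
  refine ⟨Fin m → R, inferInstance, e, fun i l hl u v w huv => ?_⟩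
  rw [h _ _ _ hl, h _ _ _ hl, e.apply_symm_apply, e.apply_symm_apply] at huv ⊢
  have h1 := (ψ i l).injective (Fin.ext huv)
  have h2 : ∑ j, C i l j * u j = ∑ j, C i l j * v j := add_right_cancel h1
  have h3 : ∀ u : Fin m → R, ∑ j, C i l j * (u + w) j =
      ∑ j, C i l j * u j + ∑ j, C i l j * w j := by
    intro u
    rw [← Finset.sum_add_distrib]
    exact Finset.sum_congr rfl fun j _ => by rw [Pi.add_apply, mul_add]
  rw [h3, h3, h2]

/-- **Theorem.** For `d ≥ 3`, `b ≥ 2` and every `t` there is `c > 0` such that every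
`(t,m,d)`-net in base `b`, whose first `min(m, m/(d-1) + (t+1)(d-1))` digits come from the digital
method over some finite ring, or more generally are compatible with some group structure, has star
discrepancy at least `c m^(d-1) / b^m`. -/
theorem result (d : ℕ) (hd : 3 ≤ d) (b : ℕ) (hb : 2 ≤ b) (t : ℕ) :
    ∃ c : ℝ, 0 < c ∧ ∀ (m : ℕ) (ξ : Fin (b ^ m) → Fin d → ℝ),
      (∀ μ j, 0 ≤ ξ μ j ∧ ξ μ j < 1) → IsNet b t m ξ →
        (IsDigital b m (min m (m / (d - 1) + (t + 1) * (d - 1))) ξ ∨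
          IsGroupDigital b m (min m (m / (d - 1) + (t + 1) * (d - 1))) ξ) →
        ENNReal.ofReal (c * (m:ℝ) ^ (d - 1) / (b:ℝ) ^ m) ≤ starDisc ξ := by
  classical
  obtain ⟨e, rfl⟩ : ∃ e, d = e + 3 := ⟨d - 3, by omega⟩
  have e2 : e + 3 - 1 = e + 2 := by omega
  simp only [e2]
  obtain ⟨κ, hκ, m₁, h⟩ := T9h7.GN.asy b e t hb
  set m₀ : ℕ := m₁ + 2 * ((t + 1) * (e + 2) + t) with hm₀
  set c : ℝ := min (κ / 2) (1 / (8 * ((m₀:ℝ) + 1) ^ (e + 2))) with hc
  have hc0 : 0 < c := lt_min (by positivity) (by positivity)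
  refine ⟨c, hc0, fun m ξ hξ hnet hdig => ?_⟩
  have hbN : 0 < b ^ m := by positivity
  by_contra hcon
  rw [not_le] at hcon
  set M : ℝ := c * (m:ℝ) ^ (e + 2) with hM
  have hM0 : 0 ≤ M := by positivity
  have hcast : ((b ^ m : ℕ) : ℝ) = (b:ℝ) ^ m := by push_cast; rfl
  have hbox := W870.DX.AN.main (b ^ m) (e + 3) ξ M hbN hM0 hξ (by
    rw [hcast]
    exact hcon.le)
  have hbox' : ∀ y : Fin (e + 3) → ℝ, (∀ i, 0 ≤ y i) → (∀ i, y i ≤ 1) →
      |(∑ μ, if ∀ i, ξ μ i < y i then (1:ℝ) else 0) - (b:ℝ) ^ m * ∏ i, y i| ≤ M := by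
    intro y h0 h1
    have h2 := hbox y h0 h1
    rw [hcast] at h2
    rw [Finset.sum_boole]
    exact h2
  have hquarter : 1 / 4 ≤ M := T9h7.GN.quarter hbN (by omega) ξ hξ (by rw [hcast]; exact hbox')
  -- small `m`
  by_cases hm : m < m₀
  · have h2 : c ≤ 1 / (8 * ((m₀:ℝ) + 1) ^ (e + 2)) := min_le_right _ _
    have h3 : (m:ℝ) ^ (e + 2) ≤ ((m₀:ℝ) + 1) ^ (e + 2) := by
      refine pow_le_pow_left₀ (Nat.cast_nonneg _) ?_ _
      have : (m:ℝ) ≤ m₀ := by exact_mod_cast hm.le
      linarith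
    have h4 : M ≤ 1 / 8 := by
      calc M ≤ 1 / (8 * ((m₀:ℝ) + 1) ^ (e + 2)) * ((m₀:ℝ) + 1) ^ (e + 2) :=
            mul_le_mul h2 h3 (by positivity) (by positivity)
        _ = 1 / 8 := by field_simp
    linarith
  -- large `m`
  push Not at hm
  have hdig' : IsGroupDigital b m (min m (m / (e + 2) + (t + 1) * (e + 2))) ξ := by
    rcases hdig with hdig | hdig
    · exact hdig.isGroupDigital
    · exact hdig
  set n : ℕ := m / (e + 2) + (t + 1) * (e + 2) with hn
  have hhalf : m / (e + 2) ≤ m / 2 := Nat.div_le_div_left (by omega) (by norm_num)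
  have hnm : n + t ≤ m := by omega
  rw [min_eq_right (by omega)] at hdig'
  obtain ⟨G, _, E, hE⟩ := hdig'
  let _ : Fintype G := Fintype.ofEquiv _ E
  set x : G → Fin (e + 2 + 1) → ℝ := fun u => ξ (E.symm u) with hx
  have hcardG : Fintype.card G = b ^ m := by
    rw [← Fintype.card_congr E, Fintype.card_fin]
  have hex : ∀ p : T9h7.GN.Pos (e + 2 + 1), ∃ K : AddSubgroup G, p.2 < n →
      ∀ u v, T9h7.GN.dgx b x p u = T9h7.GN.dgx b x p v ↔ u - v ∈ K := by
    intro p
    by_cases hp : p.2 < n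
    · obtain ⟨K, hK⟩ := T9h7.GN.exists_K (T9h7.GN.dgx b x p)
        (fun u v w huv => hE p.1 p.2 hp u v w huv)
      exact ⟨K, fun _ => hK⟩
    · exact ⟨⊥, fun h' => absurd h' hp⟩
  choose K hK using hex
  have hnetx : ∀ k v : Fin (e + 2 + 1) → ℕ, ∑ i, k i + t = m → (∀ i, v i < b ^ k i) →
      ∃ u, ∀ i, W870.DX.key b (k i) (x u i) = v i := by
    intro k v hk hv
    have h1 := hnet k v hk hv
    have h2 : (univ.filter (fun μ => ∀ i, (v i : ℝ) / (b:ℝ) ^ k i ≤ ξ μ i ∧
        ξ μ i < ((v i : ℝ) + 1) / (b:ℝ) ^ k i)).Nonempty := by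
      rw [← card_pos, h1]
      positivity
    obtain ⟨μ, hμ⟩ := h2
    rw [mem_filter] at hμ
    refine ⟨E μ, fun i => ?_⟩
    have h3 := (W870.DX.FinB.cell_iff (b := b) (by omega) (hξ μ i).1).1 (hμ.2 i)
    simp only [hx, E.symm_apply_apply]
    exact h3
  have hboxV : ∀ y : Fin (e + 2 + 1) → ℝ, (∀ i, 0 ≤ y i) → (∀ i, y i ≤ 1) →
      |(∑ v, if ∀ i, x v i < y i then (1:ℝ) else 0) - (b:ℝ) ^ m * ∏ i, y i| ≤ M := by
    intro y h0 h1
    have h2 : ∑ v, (if ∀ i, x v i < y i then (1:ℝ) else 0) =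
        ∑ μ, (if ∀ i, ξ μ i < y i then (1:ℝ) else 0) :=
      Fintype.sum_equiv E.symm _ _ fun v => rfl
    rw [h2]
    exact hbox' y h0 h1
  have h1 := h m (by omega) G K (T9h7.GN.dgx b x) M hM0 (fun A hA =>
    T9h7.GN.sys_of_net hb hnm (fun u i => hξ _ _) hcardG hnetx K hK hboxV A hA)
  have h2 : c ≤ κ / 2 := min_le_left _ _
  have h3 : (0:ℝ) ≤ (m:ℝ) ^ (e + 2) := by positivity
  have h4 : κ * (m:ℝ) ^ (e + 2) ≤ κ / 2 * (m:ℝ) ^ (e + 2) :=
    h1.trans (mul_le_mul_of_nonneg_right h2 h3)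
  have h5 : (m:ℝ) ^ (e + 2) = 0 := by nlinarith
  rw [hM, h5, mul_zero] at hquarter
  linarith

end Pool.Agent.Results.MP_173de9_an.GroupNets
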