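import Pool.Agent.T9h7.SC.Grid

set_option autoImplicit false

/-!
# Scrambled nets and typical nets: the star discrepancy has the worst possible order

For every `(t,m,d)`-net in base `b` the nested uniform (Owen) scrambling of any depth `L ≥ m` has
star discrepancy larger than `c (m/(t+1))^(d-1) / b^m` with probability at least
`1 - exp(-(b^m)^c)`; consequently all but a proportion `exp(-(b^m)^c)` of all the
`(t,m,d)`-nets in base `b` on the grid of mesh `b^(-L)` have star discrepancy larger than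
`c (m/(t+1))^(d-1) / b^m`.
-/

namespace Pool.Agent.Results.MP_173de9_an.ScrambledNets

open Finset MeasureTheory

/-- The nodes of the tree of the digits in base `b` of depth `L`: a level `l < L` together with a
prefix of length `l`, that is, a number `u < b^l`. -/
abbrev Node (b L : ℕ) : Type := (l : Fin L) × Fin (b ^ (l : ℕ))

/-- The scramblings of depth `L` in base `b` of the `d` coordinates: one permutation of the digits
for every coordinate and every node (all of them are chosen independently and uniformly). -/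
abbrev Scrambling (b L d : ℕ) : Type := Fin d × Node b L → Equiv.Perm (Fin b)

/-- The node of level `l` on the path of `x ∈ [0,1)`: its prefix is `⌊b^l x⌋` (which is less than
`b^l`), the number formed by the first `l` digits of `x`. -/
noncomputable def nodeOf (b L : ℕ) [NeZero b] (x : ℝ) (l : Fin L) : Node b L :=
  ⟨l, Fin.ofNat (b ^ (l : ℕ)) ⌊(b:ℝ) ^ (l : ℕ) * x⌋₊⟩

/-- The digit `⌊b^(l+1) x⌋ mod b` of `x`, the one that follows its first `l` digits. -/
noncomputable def digOf (b : ℕ) [NeZero b] (x : ℝ) (l : ℕ) : Fin b :=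
  Fin.ofNat b ⌊(b:ℝ) ^ (l + 1) * x⌋₊

/-- Nested (Owen) scrambling of a number `x ∈ [0,1)`: for `l < L` the digit number `l` is replaced
by its image under the permutation attached to the node given by the preceding `l` digits of `x`;
the part `fract (b^L x) / b^L` of `x` (the later digits) is kept. -/
noncomputable def scramble (b L : ℕ) [NeZero b] (ρ : Node b L → Equiv.Perm (Fin b)) (x : ℝ) : ℝ :=
  ∑ l : Fin L, ((ρ (nodeOf b L x l) (digOf b x l) : ℕ) : ℝ) / (b:ℝ) ^ ((l : ℕ) + 1) +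
    Int.fract ((b:ℝ) ^ L * x) / (b:ℝ) ^ L

/-- The scrambled point set: in each coordinate all the points are scrambled with the same
permutations, different coordinates use different permutations. -/
noncomputable def scrambleSet (b L : ℕ) [NeZero b] {N d : ℕ} (σ : Scrambling b L d)
    (ξ : Fin N → Fin d → ℝ) : Fin N → Fin d → ℝ :=
  fun μ j => scramble b L (fun u => σ (j, u)) (ξ μ j)

/-- The local discrepancy `∏ x_j - (1/m) Σ_μ χ_{[0,x]}(ξ^μ)` of `m` points `ξ` at `x`. -/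
noncomputable def localDisc {m d : ℕ} (ξ : Fin m → Fin d → ℝ) (x : Fin d → ℝ) : ℝ :=
  ∏ j, x j - (1 / (m:ℝ)) * ∑ μ : Fin m, (Set.Icc (0 : Fin d → ℝ) x).indicator (fun _ => (1:ℝ)) (ξ μ)

/-- `D(ξ,m,d)_∞`: the `L_∞` norm of the local discrepancy over `[0,1]^d`. -/
noncomputable def starDisc {m d : ℕ} (ξ : Fin m → Fin d → ℝ) : ENNReal :=
  eLpNorm (localDisc ξ) ⊤ (volume.restrict (Set.Icc (0 : Fin d → ℝ) 1))

open Classical in
/-- `(t,m,d)`-nets in base `b`: every elementary interval `∏ [v_i b^(-k_i), (v_i+1) b^(-k_i))` of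
volume `b^(t-m)` contains exactly `b^t` of the `b^m` points. -/
def IsNet (b t m : ℕ) {d : ℕ} (ξ : Fin (b ^ m) → Fin d → ℝ) : Prop :=
  ∀ k v : Fin d → ℕ, ∑ i, k i + t = m → (∀ i, v i < b ^ k i) →
    (univ.filter (fun μ => ∀ i, (v i : ℝ) / (b:ℝ) ^ k i ≤ ξ μ i ∧
      ξ μ i < ((v i : ℝ) + 1) / (b:ℝ) ^ k i)).card = b ^ t

/-- The point set with the coordinates `u μ j / b^L` on the grid of mesh `b^(-L)`. -/
noncomputable def gridPoints (b L : ℕ) {N d : ℕ} (u : Fin N → Fin d → Fin (b ^ L)) :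
    Fin N → Fin d → ℝ := fun μ j => ((u μ j : ℕ) : ℝ) / (b:ℝ) ^ L

open Classical in
/-- **Theorem.** Part 1: for every `(t,m,d)`-net the proportion of the scramblings of depth `L`
giving a star discrepancy at most `c (m/(t+1))^(d-1) / b^m` is at most `exp(-(b^m)^c)`.
Part 2: the proportion of the `(t,m,d)`-nets on the grid of mesh `b^(-L)` (as indexed point sets)
with star discrepancy at most `c (m/(t+1))^(d-1) / b^m` is at most `exp(-(b^m)^c)`. -/
theorem result (b d : ℕ) [NeZero b] (hb : 2 ≤ b) (hd : 2 ≤ d) :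
    ∃ c : ℝ, 0 < c ∧ ∀ t : ℕ, ∃ m₀ : ℕ, ∀ m L : ℕ, m₀ ≤ m → m ≤ L →
      (∀ ξ : Fin (b ^ m) → Fin d → ℝ, (∀ μ j, 0 ≤ ξ μ j ∧ ξ μ j < 1) → IsNet b t m ξ →
        ((univ.filter (fun σ : Scrambling b L d => starDisc (scrambleSet b L σ ξ) ≤
            ENNReal.ofReal (c * ((m:ℝ) / (t + 1)) ^ (d - 1) / (b:ℝ) ^ m))).card : ℝ) ≤
          Real.exp (- ((b:ℝ) ^ m) ^ c) * (Fintype.card (Scrambling b L d) : ℝ)) ∧
      ((univ.filter (fun u : Fin (b ^ m) → Fin d → Fin (b ^ L) =>
          IsNet b t m (gridPoints b L u) ∧ starDisc (gridPoints b L u) ≤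
            ENNReal.ofReal (c * ((m:ℝ) / (t + 1)) ^ (d - 1) / (b:ℝ) ^ m))).card : ℝ) ≤
        Real.exp (- ((b:ℝ) ^ m) ^ c) *
          ((univ.filter (fun u : Fin (b ^ m) → Fin d → Fin (b ^ L) =>
            IsNet b t m (gridPoints b L u))).card : ℝ) := by
  obtain ⟨c, hc, h⟩ := T9h7.SC.nets (b := b) (d := d) hb hd
  refine ⟨c, hc, fun t => ?_⟩
  obtain ⟨m₀, hm₀⟩ := h t
  refine ⟨m₀, fun m L hm hL => ?_⟩
  have hN : 0 < b ^ m := by positivity
  have hcast : ((b ^ m : ℕ) : ℝ) = (b:ℝ) ^ m := by push_cast; rfl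
  have hM : 0 ≤ c * ((m:ℝ) / (t + 1)) ^ (d - 1) := by positivity
  have key : ∀ ξ : Fin (b ^ m) → Fin d → ℝ, (∀ μ j, 0 ≤ ξ μ j ∧ ξ μ j < 1) → IsNet b t m ξ →
      T9h7.SC.PS (b := b) L ξ (c * ((m:ℝ) / (t + 1)) ^ (d - 1)) ≤
        Real.exp (- ((b:ℝ) ^ m) ^ c) := fun ξ hξ hnet =>
    (T9h7.SC.PS_le_PG hb hN ξ hM).trans (hm₀ m L hm hL ξ hξ hnet)
  refine ⟨fun ξ hξ hnet => ?_, ?_⟩
  · have h1 := key ξ hξ hnet
    unfold T9h7.SC.PS T9h7.SC.Av at h1
    rw [div_le_iff₀ T9h7.SC.card_pos', Finset.sum_boole, hcast] at h1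
    exact h1
  · have h2 := T9h7.SC.class_bound (N := b ^ m) (d := d) hb
      (univ.filter (fun u : Fin (b ^ m) → Fin d → Fin (b ^ L) => IsNet b t m (gridPoints b L u)))
      (fun σ u hu => by
        rw [mem_filter] at hu
        refine ⟨T9h7.SC.scrGrid σ u, ?_, T9h7.SC.gp_scrGrid hb σ u⟩
        rw [mem_filter]
        refine ⟨mem_univ _, ?_⟩
        have h3 : gridPoints b L (T9h7.SC.scrGrid σ u) = T9h7.SC.scrSet b L σ (gridPoints b L u) :=
          T9h7.SC.gp_scrGrid hb σ u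
        rw [h3]
        exact T9h7.SC.net_scr hb hL _ (fun μ j => T9h7.SC.gp_mem hb u μ j) hu.2 σ)
      (c * ((m:ℝ) / (t + 1)) ^ (d - 1)) (Real.exp (- ((b:ℝ) ^ m) ^ c))
      (fun u hu => by
        rw [mem_filter] at hu
        exact key _ (fun μ j => T9h7.SC.gp_mem hb u μ j) hu.2)
    rw [Finset.filter_filter, hcast] at h2
    exact h2

end Pool.Agent.Results.MP_173de9_an.ScrambledNets
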