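import Pool.Agent.T9h7.SC.Grid

set_option autoImplicit false

/-!
# Scrambling of arbitrary point sets

For every `N`-point set in `[0,1)^d`, `N ≤ b^L`, the nested uniform (Owen) scrambling of depth `L`
in base `b` has star discrepancy larger than `c (log N / log log N)^(d-1) / N` with probability at
least `1 - exp(-N^c)`; consequently in every class of point sets on the grid of mesh `b^(-L)` that
is invariant under scrambling all but a proportion `exp(-N^c)` of the members have star discrepancy
larger than `c (log N / log log N)^(d-1) / N`.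
-/

namespace Pool.Agent.Results.MP_173de9_an.ScrambledSets

open Finset MeasureTheory

/-- The nodes of the tree of the digits in base `b` of depth `L`: a level `l < L` together with a
prefix of length `l`, that is, a number `u < b^l`. -/
abbrev Node (b L : ℕ) : Type := (l : Fin L) × Fin (b ^ (l : ℕ))

/-- The scramblings of depth `L` in base `b` of the `d` coordinates: one permutation of the digits
for every coordinate and every node (all of them are chosen independently and uniformly). -/
abbrev Scrambling (b L d : ℕ) : Type := Fin d × Node b L → Equiv.Perm (Fin b)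

/-- The node of level `l` on the path of `x ∈ [0,1)`: its prefix is `⌊b^l x⌋` (which is less than
`b^l`), the number formed by the first `l` digits of `x`. -/
noncomputable def nodeOf (b L : ℕ) [NeZero b] (x : ℝ) (l : Fin L) : Node b L :=
  ⟨l, Fin.ofNat (b ^ (l : ℕ)) ⌊(b:ℝ) ^ (l : ℕ) * x⌋₊⟩

/-- The digit `⌊b^(l+1) x⌋ mod b` of `x`, the one that follows its first `l` digits. -/
noncomputable def digOf (b : ℕ) [NeZero b] (x : ℝ) (l : ℕ) : Fin b :=
  Fin.ofNat b ⌊(b:ℝ) ^ (l + 1) * x⌋₊

/-- Nested (Owen) scrambling of a number `x ∈ [0,1)`: for `l < L` the digit number `l` is replaced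
by its image under the permutation attached to the node given by the preceding `l` digits of `x`;
the part `fract (b^L x) / b^L` of `x` (the later digits) is kept. -/
noncomputable def scramble (b L : ℕ) [NeZero b] (ρ : Node b L → Equiv.Perm (Fin b)) (x : ℝ) : ℝ :=
  ∑ l : Fin L, ((ρ (nodeOf b L x l) (digOf b x l) : ℕ) : ℝ) / (b:ℝ) ^ ((l : ℕ) + 1) +
    Int.fract ((b:ℝ) ^ L * x) / (b:ℝ) ^ L

/-- The scrambled point set: in each coordinate all the points are scrambled with the same
permutations, different coordinates use different permutations. -/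
noncomputable def scrambleSet (b L : ℕ) [NeZero b] {N d : ℕ} (σ : Scrambling b L d)
    (ξ : Fin N → Fin d → ℝ) : Fin N → Fin d → ℝ :=
  fun μ j => scramble b L (fun u => σ (j, u)) (ξ μ j)

/-- The local discrepancy `∏ x_j - (1/m) Σ_μ χ_{[0,x]}(ξ^μ)` of `m` points `ξ` at `x`. -/
noncomputable def localDisc {m d : ℕ} (ξ : Fin m → Fin d → ℝ) (x : Fin d → ℝ) : ℝ :=
  ∏ j, x j - (1 / (m:ℝ)) * ∑ μ : Fin m, (Set.Icc (0 : Fin d → ℝ) x).indicator (fun _ => (1:ℝ)) (ξ μ)

/-- `D(ξ,m,d)_∞`: the `L_∞` norm of the local discrepancy over `[0,1]^d`. -/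
noncomputable def starDisc {m d : ℕ} (ξ : Fin m → Fin d → ℝ) : ENNReal :=
  eLpNorm (localDisc ξ) ⊤ (volume.restrict (Set.Icc (0 : Fin d → ℝ) 1))

/-- The point set with the coordinates `u μ j / b^L` on the grid of mesh `b^(-L)`. -/
noncomputable def gridPoints (b L : ℕ) {N d : ℕ} (u : Fin N → Fin d → Fin (b ^ L)) :
    Fin N → Fin d → ℝ := fun μ j => ((u μ j : ℕ) : ℝ) / (b:ℝ) ^ L

open Classical in
/-- **Theorem.** Part 1: for every `N`-point set the proportion of the scramblings of depth `L`
giving a star discrepancy at most `c (log N / log log N)^(d-1) / N` is at most `exp(-N^c)`.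
Part 2: the same bound for the proportion of such point sets in any class of (indexed) point sets on
the grid of mesh `b^(-L)` that is invariant under all scramblings. -/
theorem result (b d : ℕ) [NeZero b] (hb : 2 ≤ b) (hd : 2 ≤ d) :
    ∃ c : ℝ, 0 < c ∧ ∃ N₀ : ℕ, ∀ N L : ℕ, N₀ ≤ N → N ≤ b ^ L →
      (∀ ξ : Fin N → Fin d → ℝ, (∀ μ j, 0 ≤ ξ μ j ∧ ξ μ j < 1) →
        ((univ.filter (fun σ : Scrambling b L d => starDisc (scrambleSet b L σ ξ) ≤
            ENNReal.ofReal (c * (Real.log N / Real.log (Real.log N)) ^ (d - 1) / N))).card : ℝ) ≤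
          Real.exp (- (N:ℝ) ^ c) * (Fintype.card (Scrambling b L d) : ℝ)) ∧
      (∀ 𝒞 : Finset (Fin N → Fin d → Fin (b ^ L)),
        (∀ σ : Scrambling b L d, ∀ u ∈ 𝒞, ∃ u' ∈ 𝒞,
          gridPoints b L u' = scrambleSet b L σ (gridPoints b L u)) →
        ((𝒞.filter (fun u => starDisc (gridPoints b L u) ≤
            ENNReal.ofReal (c * (Real.log N / Real.log (Real.log N)) ^ (d - 1) / N))).card : ℝ) ≤
          Real.exp (- (N:ℝ) ^ c) * (𝒞.card : ℝ)) := by
  obtain ⟨c, hc, N₁, h⟩ := T9h7.SC.sets (b := b) (d := d) hb hd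
  refine ⟨c, hc, max N₁ 16, fun N L hN hL => ?_⟩
  have hN1 : N₁ ≤ N := (le_max_left _ _).trans hN
  have hN16 : 16 ≤ N := (le_max_right _ _).trans hN
  have hN0 : 0 < N := by omega
  have hlog : 1 ≤ Real.log N := by
    rw [Real.le_log_iff_exp_le (by exact_mod_cast hN0)]
    have h1 : (16:ℝ) ≤ N := by exact_mod_cast hN16
    have := Real.exp_one_lt_d9
    linarith
  have hM : 0 ≤ c * (Real.log N / Real.log (Real.log N)) ^ (d - 1) := by
    have h1 : 0 ≤ Real.log (Real.log N) := Real.log_nonneg hlog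
    have h2 : 0 ≤ Real.log (N:ℝ) := by linarith
    positivity
  have key : ∀ ξ : Fin N → Fin d → ℝ, (∀ μ j, 0 ≤ ξ μ j ∧ ξ μ j < 1) →
      T9h7.SC.PS (b := b) L ξ (c * (Real.log N / Real.log (Real.log N)) ^ (d - 1)) ≤
        Real.exp (- (N:ℝ) ^ c) := fun ξ hξ =>
    (T9h7.SC.PS_le_PG hb hN0 ξ hM).trans (h N L hN1 hL ξ hξ)
  refine ⟨fun ξ hξ => ?_, fun 𝒞 hinv => ?_⟩
  · have h1 := key ξ hξ
    unfold T9h7.SC.PS T9h7.SC.Av at h1
    rw [div_le_iff₀ T9h7.SC.card_pos', Finset.sum_boole] at h1
    exact h1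
  · exact T9h7.SC.class_bound hb 𝒞 hinv _ _
      (fun u _ => key _ (fun μ j => T9h7.SC.gp_mem hb u μ j))

end Pool.Agent.Results.MP_173de9_an.ScrambledSets
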