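import Pool.Agent.T9h7.GE.E10
import Pool.Agent.N261.LP.PA
import Pool.Agent.N261.LP.PB
import Pool.Agent.N261.LP.PC
import Pool.Agent.N261.LP.PC4
import Pool.Agent.N261.LP.PW
import Pool.Agent.N261.LP.PX
import Pool.Agent.Results.MP_173de9_an.LargeExponents

/-!
# The optimal `L_p` star discrepancy for all exponents `p ≤ (ln m)^κ`, `κ < 1 / d`

The page asks for the order of `D(m,d)_∞`.  The `L_p` star discrepancy interpolates between the
known case of a fixed exponent `p`, where the order is `(ln m)^((d-1)/2) / m`, and `p = ∞`.  The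
lower bound `c √p (ln m)^((d-1)/2) / m` is known from `LargeExponents` for
`1 ≤ p ≤ (ln m)^(1/d) / ln ln m` (this is the source of the best known lower bound of
`D(m,d)_∞`).  Here it is shown to be sharp in this whole range up to the exponent of `ln m`: for every
`κ < 1 / d` the optimal `L_p` star discrepancy has the order `√p (ln m)^((d-1)/2) / m` uniformly in
`1 ≤ p ≤ (ln m)^κ`.  (`SharpGrowingExponents` has `κ < 1 / (2 d + 1)`.)

The upper bound uses digital `(0, n, d)`-nets in a prime base whose digits are reversed at random.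
New ingredients: the square function in the signs of one coordinate is compared with the one of
the tensor of all ones near a hyperplane of the cyclic group, whose fluctuation is bounded by
the maxima of random polynomials; the deep levels are treated by full hypercontractivity and a
moment bound of the number of the points of the net which are very close to a random point.
-/

set_option autoImplicit false

namespace Pool.Agent.Results.MP_173de9_an.SharpWiderExponents

open MeasureTheory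

/-- The local discrepancy `∏ x_j - Σ_μ λ_μ χ_{[0,x]}(ξ^μ)` of the points `ξ` with the weights `λ`. -/
noncomputable def localDisc {m d : ℕ} (lam : Fin m → ℝ) (ξ : Fin m → Fin d → ℝ) (x : Fin d → ℝ) : ℝ :=
  ∏ j, x j - ∑ μ : Fin m, lam μ * (Set.Icc (0 : Fin d → ℝ) x).indicator (fun _ => (1:ℝ)) (ξ μ)

/-- The `L_p` norm of the weighted local discrepancy over `[0,1]^d`. -/
noncomputable def starDisc (p : ENNReal) {m d : ℕ} (lam : Fin m → ℝ) (ξ : Fin m → Fin d → ℝ) :
    ENNReal :=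
  eLpNorm (localDisc lam ξ) p (volume.restrict (Set.Icc (0 : Fin d → ℝ) 1))

/-- `D(m,d)_p`: the infimum over all `m`-point sets (repetitions allowed) in `[0,1]^d`, all weights
equal to `1 / m`. -/
noncomputable def optDisc (p : ENNReal) (m d : ℕ) : ENNReal :=
  ⨅ (ξ : Fin m → Fin d → ℝ) (_ : ∀ μ, ξ μ ∈ Set.Icc (0 : Fin d → ℝ) 1),
    starDisc p (fun _ => 1 / (m:ℝ)) ξ

/-- The infimum over all `m`-point sets in `[0,1]^d` and all real weights. -/
noncomputable def optWeighted (p : ENNReal) (m d : ℕ) : ENNReal :=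
  ⨅ (lam : Fin m → ℝ) (ξ : Fin m → Fin d → ℝ) (_ : ∀ μ, ξ μ ∈ Set.Icc (0 : Fin d → ℝ) 1),
    starDisc p lam ξ

theorem localDisc_eq {m d : ℕ} (ξ : Fin m → Fin d → ℝ) :
    localDisc (fun _ => 1 / (m : ℝ)) ξ = H730R2.LU.ld ξ := by
  funext x
  unfold localDisc H730R2.LU.ld
  rw [← Finset.mul_sum]

/-- Let `d ≥ 3` and `0 < κ < 1 / d`.  There are constants `c, C > 0` such that for every `m ≥ 3` and
every real exponent `1 ≤ p ≤ (ln m)^κ`
`c √p (ln m)^((d-1)/2) / m ≤ D_w(m,d)_p ≤ D(m,d)_p ≤ C √p (ln m)^((d-1)/2) / m`,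
where `D(m,d)_p` is the optimal `L_p` star discrepancy of `m` points and `D_w(m,d)_p` the one with
arbitrary real weights.  Moreover for every `m ≥ 3` there is one set of `m` points whose `L_p` star
discrepancies are at most `C √p (ln m)^((d-1)/2) / m` for all these `p` simultaneously. -/
theorem result (d : ℕ) (hd : 3 ≤ d) (κ : ℝ) (hκ0 : 0 < κ) (hκ1 : κ < 1 / (d : ℝ)) :
    ∃ c C : ℝ, 0 < c ∧ 0 < C ∧ ∀ m : ℕ, 3 ≤ m →
      (∀ p : ℝ, 1 ≤ p → p ≤ (Real.log m) ^ κ →
        ENNReal.ofReal (c * Real.sqrt p * (Real.log m) ^ (((d : ℝ) - 1) / 2) / m) ≤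
          optWeighted (ENNReal.ofReal p) m d ∧
        optWeighted (ENNReal.ofReal p) m d ≤ optDisc (ENNReal.ofReal p) m d ∧
        optDisc (ENNReal.ofReal p) m d ≤
          ENNReal.ofReal (C * Real.sqrt p * (Real.log m) ^ (((d : ℝ) - 1) / 2) / m)) ∧
      ∃ ξ : Fin m → Fin d → ℝ, (∀ μ, ξ μ ∈ Set.Icc (0 : Fin d → ℝ) 1) ∧
        ∀ p : ℝ, 1 ≤ p → p ≤ (Real.log m) ^ κ →
          starDisc (ENNReal.ofReal p) (fun _ => 1 / (m : ℝ)) ξ ≤
            ENNReal.ofReal (C * Real.sqrt p * (Real.log m) ^ (((d : ℝ) - 1) / 2) / m) := by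
  have hC1 := N261.LP.t_C1
  have hC2 := N261.LP.t_C2
  obtain ⟨k, rfl⟩ : ∃ k, d = k + 1 + 1 := ⟨d - 2, by omega⟩
  have hd3 : (3 : ℝ) ≤ ((k + 1 + 1 : ℕ) : ℝ) := by exact_mod_cast hd
  have hd0 : (0 : ℝ) < ((k + 1 + 1 : ℕ) : ℝ) := by linarith
  have hκ2 : κ * ((k : ℝ) + 2) < 1 := by
    rw [lt_div_iff₀ hd0] at hκ1
    push_cast at hκ1
    linarith
  obtain ⟨C, hC, hU⟩ := T9h7.GE.upper' (N261.LP.t_B N261.LP.t_A) hC1 hC2 (N261.LP.t_C4 hC1 hC2)
    N261.LP.t_W N261.LP.t_X N261.LP.t_P k κ hκ0 hκ2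
  obtain ⟨c, hc, hLow⟩ := LargeExponents.result (k + 1 + 1) hd
  set δ : ℝ := 1 / ((k + 1 + 1 : ℕ) : ℝ) - κ with hδ
  have hδ0 : 0 < δ := by rw [hδ]; linarith
  set D : ℝ := Real.sqrt (1 / δ) + 1 with hD
  have hD0 : 0 < D := by positivity
  have hkd : (((k + 1 + 1 : ℕ) : ℝ) - 1) / 2 = ((k + 1 : ℕ) : ℝ) / 2 := by push_cast; ring
  refine ⟨c / D, C, by positivity, hC, fun m hm => ?_⟩
  have hm3 : (3 : ℝ) ≤ m := by exact_mod_cast hm
  have hm0 : (0 : ℝ) < m := by linarith
  obtain ⟨ξ, hξ, hξp⟩ := hU m (by omega)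
  have hup : ∀ p : ℝ, 1 ≤ p → p ≤ (Real.log m) ^ κ →
      starDisc (ENNReal.ofReal p) (fun _ => 1 / (m : ℝ)) ξ ≤
        ENNReal.ofReal (C * Real.sqrt p * (Real.log m) ^ ((((k + 1 + 1 : ℕ) : ℝ) - 1) / 2) / m) := by
    intro p hp1 hp2
    unfold starDisc
    rw [localDisc_eq, hkd]
    exact hξp p hp1 hp2
  refine ⟨fun p hp1 hp2 => ?_, ξ, hξ, hup⟩
  obtain ⟨h1, h2⟩ := hLow m hm (ENNReal.ofReal p) (by
    rw [← ENNReal.ofReal_one]; exact ENNReal.ofReal_le_ofReal hp1)
  refine ⟨?_, h2, (iInf₂_le ξ hξ).trans (hup p hp1 hp2)⟩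
  refine le_trans ?_ h1
  -- logarithms
  have hL1 : 1 < Real.log m := by
    rw [Real.lt_log_iff_exp_lt hm0]
    exact lt_of_lt_of_le Real.exp_one_lt_three hm3
  have hL0 : 0 < Real.log m := by linarith
  have hLL : 0 < Real.log (Real.log m) := Real.log_pos hL1
  have hR : Real.sqrt p ≤ D * ((Real.log m) ^ (1 / (2 * ((k + 1 + 1 : ℕ) : ℝ))) /
      (Real.log (Real.log m)) ^ (1 / 2 : ℝ)) := by
    have e1 : Real.sqrt p ≤ (Real.log m) ^ (κ / 2) := by
      rw [Real.sqrt_eq_rpow]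
      refine (Real.rpow_le_rpow (by linarith) hp2 (by norm_num)).trans (le_of_eq ?_)
      rw [← Real.rpow_mul hL0.le]
      congr 1; ring
    have e3 : Real.log (Real.log m) ≤ (1 / δ) * (Real.log m) ^ δ := by
      have := Real.log_le_rpow_div hL0.le hδ0
      refine this.trans (le_of_eq ?_)
      ring
    have e4 : (Real.log (Real.log m)) ^ (1 / 2 : ℝ) ≤ D * (Real.log m) ^ (δ / 2) := by
      refine (Real.rpow_le_rpow hLL.le e3 (by norm_num)).trans ?_
      rw [Real.mul_rpow (by positivity) (by positivity), ← Real.rpow_mul hL0.le,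
        ← Real.sqrt_eq_rpow]
      have e : δ * (1 / 2) = δ / 2 := by ring
      rw [e]
      apply mul_le_mul_of_nonneg_right _ (by positivity)
      rw [hD]; linarith
    rw [← mul_div_assoc, le_div_iff₀ (by positivity)]
    calc Real.sqrt p * (Real.log (Real.log m)) ^ (1 / 2 : ℝ)
        ≤ (Real.log m) ^ (κ / 2) * (D * (Real.log m) ^ (δ / 2)) := by
          gcongr
      _ = D * ((Real.log m) ^ (κ / 2) * (Real.log m) ^ (δ / 2)) := by ring
      _ = D * (Real.log m) ^ (1 / (2 * ((k + 1 + 1 : ℕ) : ℝ))) := by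
          rw [← Real.rpow_add hL0]
          congr 2
          rw [hδ]
          field_simp
          ring
  have hmin : ENNReal.ofReal (Real.sqrt p / D) ≤ min ((ENNReal.ofReal p) ^ (1 / 2 : ℝ))
      (ENNReal.ofReal ((Real.log m) ^ (1 / (2 * ((k + 1 + 1 : ℕ) : ℝ))) /
        (Real.log (Real.log m)) ^ (1 / 2 : ℝ))) := by
    refine le_min ?_ (ENNReal.ofReal_le_ofReal ?_)
    · rw [ENNReal.ofReal_rpow_of_nonneg (by linarith) (by norm_num), ← Real.sqrt_eq_rpow]
      apply ENNReal.ofReal_le_ofReal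
      apply div_le_self (Real.sqrt_nonneg _)
      have := Real.sqrt_nonneg (1 / δ)
      rw [hD]; linarith
    · rw [div_le_iff₀' hD0]
      exact hR
  calc ENNReal.ofReal (c / D * Real.sqrt p * (Real.log m) ^ ((((k + 1 + 1 : ℕ) : ℝ) - 1) / 2) / m)
      = ENNReal.ofReal (c * (Real.log m) ^ ((((k + 1 + 1 : ℕ) : ℝ) - 1) / 2) / m) *
        ENNReal.ofReal (Real.sqrt p / D) := by
        rw [← ENNReal.ofReal_mul (by positivity)]
        congr 1; ring
    _ ≤ _ := by gcongr

end Pool.Agent.Results.MP_173de9_an.SharpWiderExponents
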